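import Mathlib

set_option autoImplicit false

namespace Pool.Agent.Results.MP_59f6dc_co.Unbounded

section Defs

variable {V : Type} [NormedAddCommGroup V] [InnerProductSpace ℝ V] {N : ℕ}

/-- One legal jump: piece i is reflected through piece j. -/
def Jump (P Q : Fin N → V) : Prop :=
  ∃ i j, i ≠ j ∧ Q = Function.update P i ((2 : ℝ) • P j - P i)

/-- Q is reached from P by exactly n legal jumps. -/
def Reach : ℕ → (Fin N → V) → (Fin N → V) → Prop
  | 0, P, Q => P = Q
  | n + 1, P, Q => ∃ R, Reach n P R ∧ Jump R Q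

/-- Q is similar to P but larger, pieces being unlabelled. -/
def Larger (P Q : Fin N → V) : Prop :=
  ∃ (l : ℝ) (R : V ≃ₗᵢ[ℝ] V) (t : V) (s : Equiv.Perm (Fin N)), 1 < l ∧
    ∀ i, Q (s i) = l • R (P i) + t

end Defs

def D (a b : Fin 3 → ℤ) (x y z : Fin 3) : ℤ := (a y - a x) * (b z - b x) - (a z - a x) * (b y - b x)

lemma D_perm (a b : Fin 3 → ℤ) (x y z : Fin 3) (h1 : x ≠ y) (h2 : x ≠ z) (h3 : y ≠ z) :
    D a b x y z ^ 2 = D a b 0 1 2 ^ 2 := by
  fin_cases x <;> fin_cases y <;> fin_cases z <;> simp_all [D] <;> ring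

lemma inv (w : ℝ) (n : ℕ) : ∀ Q, Reach n ![0, 1, w] Q → ∃ a b : Fin 3 → ℤ,
    (∀ i, Q i = a i + b i * w) ∧ (∀ i, |a i| ≤ 3 ^ n ∧ |b i| ≤ 3 ^ n) ∧ D a b 0 1 2 ^ 2 = 1 := by
  induction n with
  | zero =>
    rintro _ rfl
    exact ⟨![0, 1, 0], ![0, 0, 1], fun i => by fin_cases i <;> simp,
      fun i => by fin_cases i <;> simp, by simp [D]⟩
  | succ n ih =>
    rintro _ ⟨R, hR, i, j, hij, rfl⟩
    obtain ⟨a, b, h1, h2, h3⟩ := ih R hR
    refine ⟨Function.update a i (2 * a j - a i), Function.update b i (2 * b j - b i),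
      fun k => ?_, fun k => ?_, ?_⟩
    · by_cases e : k = i
      · subst e; simp [h1]; ring
      · simp [Function.update_of_ne e, h1]
    · have := h2 i
      have := h2 j
      have := h2 k
      have : (0 : ℤ) < 3 ^ n := by positivity
      by_cases e : k = i
      · subst e; simp only [Function.update_self, pow_succ, abs_le] at *; omega
      · simp only [Function.update_of_ne e, pow_succ, abs_le] at *; omega
    · rw [← h3]
      fin_cases i <;> fin_cases j <;> simp_all [D] <;> (try linear_combination h3)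

/-- Three pieces on a line can need arbitrarily many jumps to reach a larger similar copy. -/
theorem result (K : ℕ) : ∃ P : Fin 3 → ℝ, (∃ n Q, Reach n P Q ∧ Larger P Q) ∧
    ∀ n Q, Reach n P Q → Larger P Q → K ≤ n := by
  set k : ℕ := 2 * 3 ^ K + 1 with hk
  have hk1 : 1 ≤ k := by omega
  set w : ℝ := k + √((k ^ 2 + 1 : ℕ) : ℝ) with hw
  have hs : √((k ^ 2 + 1 : ℕ) : ℝ) ^ 2 = k ^ 2 + 1 := by
    rw [Real.sq_sqrt (by positivity)]; push_cast; ring
  have hww : w * w = 1 + 2 * k * w := by rw [hw]; linear_combination hs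
  have hirr : Irrational w := by
    refine Irrational.natCast_add (irrational_sqrt_natCast_iff.2 fun ⟨t, ht⟩ => ?_) k
    exact Nat.not_exists_sq' (m := k) (n := k ^ 2 + 1) (by omega) (by nlinarith)
      ⟨t, by rw [ht, sq]⟩
  have hind : ∀ a b : ℤ, a + b * w = 0 → a = 0 ∧ b = 0 := by
    intro a b h
    by_cases hb : b = 0
    · subst hb; simpa using h
    · exact absurd (show (b : ℝ) * w = (-a : ℤ) by push_cast; linarith)
        ((hirr.intCast_mul hb).ne_int _)
  refine ⟨![0, 1, w], ?_, fun n Q hQ ⟨l, R, t, s, hl, hs⟩ => ?_⟩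
  · have : ∀ m : ℕ, Reach (2 * m) ![0, 1, w] ![0, 1 + 2 * m * w, w] := by
      intro m
      induction m with
      | zero => simp [Reach]
      | succ m ih =>
        refine ⟨_, ⟨_, ih, 1, 0, by decide, rfl⟩, 1, 2, by decide, ?_⟩
        funext i; fin_cases i <;> simp; ring
    refine ⟨_, _, this k, w, LinearIsometryEquiv.refl _ _, 0, Equiv.swap 1 2, ?_, fun i => ?_⟩
    · have : (1 : ℝ) ≤ k := by exact_mod_cast hk1
      have : 0 < √((k ^ 2 + 1 : ℕ) : ℝ) := Real.sqrt_pos.2 (by positivity)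
      linarith
    · fin_cases i
      · simp [Equiv.swap_apply_of_ne_of_ne]
      · simp
      · simpa using hww.symm
  · by_contra hc
    obtain ⟨a, b, h1, h2, h3⟩ := inv w n Q hQ
    have hn : (3 : ℤ) ^ n ≤ 3 ^ K := pow_le_pow_right₀ (by norm_num) (by omega)
    have hR : |R 1| = 1 := (R.norm_map 1).trans norm_one
    have hRw : R w = w * R 1 := by simpa using R.map_smul w 1
    have e0 := hs 0
    have e1 := hs 1
    have e2 := hs 2
    simp only [h1, Matrix.cons_val, map_zero, smul_eq_mul, hRw] at e0 e1 e2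
    rw [← D_perm a b (s 0) (s 1) (s 2) (by simp) (by simp) (by simp), D] at h3
    have f1 : l * R 1 = (a (s 1) - a (s 0) : ℤ) + (b (s 1) - b (s 0) : ℤ) * w := by
      push_cast; linarith
    obtain ⟨g1, g2⟩ := hind (a (s 2) - a (s 0) - (b (s 1) - b (s 0)))
      (b (s 2) - b (s 0) - (a (s 1) - a (s 0)) - 2 * k * (b (s 1) - b (s 0))) (by
        push_cast at f1 ⊢
        linear_combination e2 - e0 + w * f1 + ((b (s 1) : ℝ) - b (s 0)) * hww)
    have b0 := h2 (s 0)
    have b1 := h2 (s 1)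
    have b2 := h2 (s 2)
    have hk' : (k : ℤ) = 2 * 3 ^ K + 1 := by rw [hk]; push_cast; ring
    simp only [abs_le] at b0 b1 b2
    have hb : b (s 1) - b (s 0) = 0 := by
      by_contra hb
      rcases lt_or_gt_of_ne hb with c | c <;> nlinarith
    rw [hb] at g1 g2 h3 f1
    have h4 : (a (s 1) - a (s 0)) ^ 4 = 1 := by
      rw [← h3, show b (s 2) - b (s 0) = a (s 1) - a (s 0) by linarith]; ring
    have h5 : |l * R 1| = l := by rw [abs_mul, hR, mul_one, abs_of_pos (by linarith)]
    have h6 : (l * R 1) ^ 4 = 1 := by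
      rw [f1, Int.cast_zero, zero_mul, add_zero]; exact_mod_cast h4
    have h7 : l ^ 4 = 1 := by rw [← h5, ← abs_pow, h6, abs_one]
    exact absurd h7 (one_lt_pow₀ hl (by norm_num)).ne'

end Pool.Agent.Results.MP_59f6dc_co.Unbounded
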